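import Pool.Agent.Lib_helper42.FM.P.G1
import Pool.Agent.Lib_helper42.FM.Stab

/-!
# No finite quotient of the surface group sees an exotic 4-sphere, by a mapping class

The proof is in `Pool.Agent.Lib_helper42.FM`. The statement is for the definitions of
`Pool.Agent.Lib_helper51.TR.Defs`.
-/

set_option autoImplicit false

namespace Pool.Agent.Lib_helper42.Superseded.FiniteQuotients

open Pool.Agent.TR

/-- The standard maps `std c` are a group trisection of the trivial group; the stabilisations of group
trisections of the trivial group are group trisections of the trivial group; and for every finite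
group `E` there is a number `G₀` such that for every group trisection `f` of the trivial group of
genus `g ≥ G₀`, with handles of the types `c`, and for every homomorphism `q` from the fundamental
group of the surface of genus `g` with one boundary component to `E` there is a mapping class `φ` of
this surface (an automorphism of the free group which fixes the boundary word) which carries the
kernels of the standard maps to subgroups with the same images under `q` as the kernels of the maps
`f i`, for all three `i` at once. -/
theorem result : (∀ (g : ℕ) (c : Fin g → Fin 3), IsTrisection c (std c)) ∧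
    (∀ (g s : ℕ) (c : Fin g → Fin 3) (c' : Fin (g + s) → Fin 3)
      (f : Fin 3 → FreeGroup (Fin g ⊕ Fin g) →* FreeGroup (Fin g))
      (f' : Fin 3 → FreeGroup (Fin (g + s) ⊕ Fin (g + s)) →* FreeGroup (Fin (g + s))),
      IsTrisection c f → (∀ h, c' (Fin.castAdd s h) = c h) → IsStab c' f f' →
        IsTrisection c' f') ∧
    ∀ (E : Type) [Group E] [Finite E], ∃ G₀ : ℕ, ∀ g : ℕ, G₀ ≤ g → ∀ (c : Fin g → Fin 3)
      (f : Fin 3 → FreeGroup (Fin g ⊕ Fin g) →* FreeGroup (Fin g)), IsTrisection c f →
        ∀ q : FreeGroup (Fin g ⊕ Fin g) →* E,
          ∃ φ : FreeGroup (Fin g ⊕ Fin g) ≃* FreeGroup (Fin g ⊕ Fin g), φ (rho g) = rho g ∧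
            ∀ i, ((std c i).ker.map φ.toMonoidHom).map q = (f i).ker.map q :=
  ⟨fun _ c => std_tri c, fun _ _ _ _ _ _ hf hc h' => stab_tri hf hc h', fun E _ _ => FM.main E⟩

end Pool.Agent.Lib_helper42.Superseded.FiniteQuotients
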