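import Pool.Agent.Lib_helper54.RS.Joined

/-!
# MP_ef641d_nt: zeros of Hecke traces on `GL_n` (an automorphic form of Burnside's theorem)

Let `π^τ`, `τ : K → ℂ`, be the conjugates of an automorphic representation of Artin type of `GL_n`
over `ℚ`, given by bounded eigenforms of level `N`, with Hecke traces `a p ∈ O_K`.  The primes with
`a p = 0` are at least `1/2` of those with all `|τ (a p)|` golden and `2/3` of the others with
`a p` neither `0` nor a root of unity (in the sense of Dirichlet density, up to bounded terms).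
The analytic input, the Rankin-Selberg bound for `GL_n`, is proved in `Lib_helper54/RS`.
-/

set_option autoImplicit false

namespace Pool.Agent.Results.MP_ef641d_nt.ZeroTraces

open Pool.Agent.RS.Main

theorem result {n N : ℕ} (hn : 2 ≤ n) (hN : N ≠ 0) (K : Type) [Field K] [NumberField K]
    (c : K →+* K) (hc : ∀ (τ : K →+* ℂ) (x : K), τ (c x) = (starRingEnd ℂ) (τ x))
    (a : ℕ → K) (ha : ∀ p : ℕ, p.Prime → ¬ p ∣ N → IsIntegral ℤ (a p))
    (χ : (K →+* ℂ) → DirichletCharacter ℂ N)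
    (φ : (K →+* ℂ) → Matrix (Fin n) (Fin n) ℝ → ℂ)
    (hφ : ∀ τ : K →+* ℂ, BoundedEigenform n N (χ τ) (φ τ) (fun p => τ (a p))) :
    ∃ C : ℝ, ∀ s : ℝ, 1 < s →
      1 / 2 * primeSum {p | ¬ p ∣ N ∧ ∀ τ : K →+* ℂ,
          ‖τ (a p)‖ = (√5 + 1) / 2 ∨ ‖τ (a p)‖ = (√5 - 1) / 2} s +
        2 / 3 * primeSum {p | ¬ p ∣ N ∧ a p ≠ 0 ∧ (¬ ∃ m : ℕ, 0 < m ∧ a p ^ m = 1) ∧
          ¬ ∀ τ : K →+* ℂ, ‖τ (a p)‖ = (√5 + 1) / 2 ∨ ‖τ (a p)‖ = (√5 - 1) / 2} s ≤
        primeSum {p | ¬ p ∣ N ∧ a p = 0} s + C :=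
  (Pool.Agent.RS.joined hn hN K c hc a ha χ φ hφ).1

end Pool.Agent.Results.MP_ef641d_nt.ZeroTraces
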